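import Pool.Agent.T9h20.TA.Spec

/-!
# The expectation for fixed `y`
-/

set_option autoImplicit false

open MeasureTheory Set
open scoped ENNReal NNReal

namespace Pool.Agent.T9h22.TA

open Pool.Agent.T9h20.TA

/-! ## Integrating out a block -/

section block

variable {β : Type} [Fintype β] [DecidableEq β] {E : β → Type} [∀ b, MeasurableSpace (E b)]
  (ν : ∀ b, Measure (E b)) [∀ b, IsProbabilityMeasure (ν b)]

theorem map_update (b : β) :
    ((Measure.pi ν).prod (ν b)).map (fun p : (∀ i, E i) × E b => Function.update p.1 b p.2) =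
      Measure.pi ν := by
  have hm : Measurable (fun p : (∀ i, E i) × E b => Function.update p.1 b p.2) := by
    rw [measurable_pi_iff]
    intro i
    by_cases hi : i = b
    · subst hi
      simpa using measurable_snd
    · have : (fun p : (∀ i, E i) × E b => Function.update p.1 b p.2 i) = fun p => p.1 i := by
        funext p
        exact Function.update_of_ne hi _ _
      rw [this]
      exact (measurable_pi_apply i).comp measurable_fst
  symm
  refine Measure.pi_eq fun s hs => ?_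
  rw [Measure.map_apply hm (MeasurableSet.univ_pi hs)]
  have h1 : (fun p : (∀ i, E i) × E b => Function.update p.1 b p.2) ⁻¹' (univ.pi s) =
      (univ.pi (Function.update s b univ)) ×ˢ (s b) := by
    ext p
    simp only [mem_preimage, mem_pi, mem_univ, true_implies, mem_prod]
    constructor
    · intro h
      refine ⟨fun i => ?_, ?_⟩
      · by_cases hi : i = b
        · subst hi; simp
        · rw [Function.update_of_ne hi]
          have := h i
          rwa [Function.update_of_ne hi] at this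
      · have := h b
        rwa [Function.update_self] at this
    · rintro ⟨h, h'⟩ i
      by_cases hi : i = b
      · subst hi
        rwa [Function.update_self]
      · rw [Function.update_of_ne hi]
        have := h i
        rwa [Function.update_of_ne hi] at this
  rw [h1, Measure.prod_prod, Measure.pi_pi, ← Finset.prod_erase_mul _ _ (Finset.mem_univ b),
    ← Finset.prod_erase_mul _ (fun i => (ν i) (s i)) (Finset.mem_univ b)]
  rw [Function.update_self, measure_univ, mul_one]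
  congr 1
  refine Finset.prod_congr rfl fun i hi => ?_
  rw [Function.update_of_ne (Finset.ne_of_mem_erase hi)]

omit [Fintype β] in
theorem meas_update (b : β) :
    Measurable (fun p : (∀ i, E i) × E b => Function.update p.1 b p.2) := by
  rw [measurable_pi_iff]
  intro i
  by_cases hi : i = b
  · subst hi
    simpa using measurable_snd
  · have : (fun p : (∀ i, E i) × E b => Function.update p.1 b p.2 i) = fun p => p.1 i := by
      funext p
      exact Function.update_of_ne hi _ _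
    rw [this]
    exact (measurable_pi_apply i).comp measurable_fst

/-- Integrating out the block `b`. -/
theorem int_block {Φ : (∀ b, E b) → ℝ≥0∞} (hΦ : Measurable Φ) (b : β) :
    ∫⁻ v, Φ v ∂(Measure.pi ν) = ∫⁻ v, ∫⁻ x, Φ (Function.update v b x) ∂(ν b) ∂(Measure.pi ν) := by
  conv_lhs => rw [← map_update ν b]
  have h1 : Measurable fun p : (∀ i, E i) × E b => Φ (Function.update p.1 b p.2) :=
    hΦ.comp (meas_update b)
  rw [lintegral_map hΦ (meas_update b), lintegral_prod _ h1.aemeasurable]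

/-- Independence of one block. -/
theorem int_indep (b : β) {f : E b → ℝ≥0∞} (hf : Measurable f) {Ψ : (∀ b, E b) → ℝ≥0∞}
    (hΨ : Measurable Ψ) (hu : ∀ v x, Ψ (Function.update v b x) = Ψ v) :
    ∫⁻ v, f (v b) * Ψ v ∂(Measure.pi ν) = (∫⁻ x, f x ∂(ν b)) * ∫⁻ v, Ψ v ∂(Measure.pi ν) := by
  have h1 : Measurable fun v : (∀ b, E b) => f (v b) * Ψ v :=
    (hf.comp (measurable_pi_apply b)).mul hΨ
  rw [int_block ν h1 b]
  have : ∀ v : (∀ b, E b), ∫⁻ x, f (Function.update v b x b) * Ψ (Function.update v b x) ∂(ν b)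
      = (∫⁻ x, f x ∂(ν b)) * Ψ v := by
    intro v
    simp only [Function.update_self, hu]
    rw [lintegral_mul_const _ hf]
  simp_rw [this]
  rw [lintegral_const_mul _ hΨ]

/-- Products over independent blocks. -/
theorem int_prod (S : Finset β) (F : ∀ b, E b → ℝ≥0∞) (hF : ∀ b, Measurable (F b))
    (C : β → ℝ≥0∞) (hC : ∀ b ∈ S, ∫⁻ x, F b x ∂(ν b) ≤ C b) :
    ∫⁻ v, ∏ b ∈ S, F b (v b) ∂(Measure.pi ν) ≤ ∏ b ∈ S, C b := by
  induction S using Finset.induction_on with
  | empty => simp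
  | insert a S ha ih =>
    simp_rw [Finset.prod_insert ha]
    have h1 : Measurable fun v : (∀ b, E b) => ∏ b ∈ S, F b (v b) :=
      Finset.measurable_fun_prod S fun b _ => (hF b).comp (measurable_pi_apply b)
    rw [int_indep ν a (hF a) h1]
    · exact mul_le_mul' (hC a (Finset.mem_insert_self a S))
        (ih fun b hb => hC b (Finset.mem_insert_of_mem hb))
    · intro v x
      refine Finset.prod_congr rfl fun b hb => ?_
      rw [Function.update_of_ne]
      rintro rfl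
      exact ha hb

end block

/-! ## Two one-variable integrals -/

/-- `|ζ| 1(|x ζ| ≤ 1)` -/
noncomputable def phL (z x : ℝ) : ℝ≥0∞ := if |x * z| ≤ 1 then ‖z‖ₑ else 0

/-- `|ζ| / x² 1(|ζ| ≤ |x|)` -/
noncomputable def phR (z x : ℝ) : ℝ≥0∞ := if |z| ≤ |x| then ‖z / x ^ 2‖ₑ else 0

theorem meas_phL : Measurable (Function.uncurry phL) := by
  unfold phL Function.uncurry
  refine Measurable.ite ?_ ?_ measurable_const
  · exact measurableSet_le (by fun_prop) measurable_const
  · fun_prop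

theorem meas_phR : Measurable (Function.uncurry phR) := by
  unfold phR Function.uncurry
  refine Measurable.ite ?_ ?_ measurable_const
  · exact measurableSet_le (by fun_prop) (by fun_prop)
  · fun_prop

theorem int_phL (z : ℝ) : ∫⁻ x, phL z x ≤ 2 := by
  unfold phL
  by_cases hz : z = 0
  · subst hz; simp
  have hz' : 0 < |z| := abs_pos.2 hz
  have h1 : (fun x : ℝ => if |x * z| ≤ 1 then ‖z‖ₑ else 0) =
      (Icc (-(1 / |z|)) (1 / |z|)).indicator (fun _ => ‖z‖ₑ) := by
    funext x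
    rw [indicator_apply]
    congr 1
    rw [eq_iff_iff, abs_mul, mem_Icc, ← abs_le, le_div_iff₀ hz']
  rw [h1, lintegral_indicator measurableSet_Icc, setLIntegral_const, Real.volume_Icc]
  rw [Real.enorm_eq_ofReal_abs, ← ENNReal.ofReal_mul (abs_nonneg _)]
  have : |z| * (1 / |z| - -(1 / |z|)) = 2 := by field_simp; ring
  rw [this]
  simp

theorem int_half (c : ℝ) (hc : 0 < c) : ∫⁻ x in Ioi c, ENNReal.ofReal (c / x ^ 2) ≤ 1 := by
  have h1 : ∀ x ∈ Ioi c, c / x ^ 2 = c * x ^ (-2 : ℝ) := by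
    intro x hx
    have hx0 : 0 < x := hc.trans hx
    rw [Real.rpow_neg hx0.le, div_eq_mul_inv]
    norm_num
  rw [setLIntegral_congr_fun measurableSet_Ioi (fun x hx => by rw [h1 x hx])]
  rw [← ofReal_integral_eq_lintegral_ofReal]
  · rw [integral_const_mul, integral_Ioi_rpow_of_lt (by norm_num) hc]
    have : c * (-c ^ ((-2 : ℝ) + 1) / (-2 + 1)) = 1 := by
      have h2 : c ^ ((-2 : ℝ) + 1) = c⁻¹ := by
        rw [show ((-2 : ℝ) + 1) = -1 by norm_num, Real.rpow_neg_one]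
      rw [h2]
      field_simp
      norm_num
    rw [this]
    simp
  · exact (integrableOn_Ioi_rpow_of_lt (by norm_num) hc).const_mul c
  · refine (ae_restrict_iff' measurableSet_Ioi).2 (Filter.Eventually.of_forall fun x hx => ?_)
    have hx0 : 0 < x := hc.trans hx
    positivity

theorem int_phR (z : ℝ) : ∫⁻ x, phR z x ≤ 2 := by
  by_cases hz : z = 0
  · subst hz; simp [phR]
  have hz' : 0 < |z| := abs_pos.2 hz
  set f : ℝ → ℝ≥0∞ := (Ioi |z|).indicator (fun x => ENNReal.ofReal (|z| / x ^ 2)) with hf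
  have hfm : Measurable f := by
    refine Measurable.indicator ?_ measurableSet_Ioi
    fun_prop
  have hfi : ∫⁻ x, f x ≤ 1 := by
    rw [hf, lintegral_indicator measurableSet_Ioi]
    exact int_half _ hz'
  have hle : ∀ᵐ x : ℝ, phR z x ≤ f x + f (-x) := by
    have h0 : ∀ᵐ x : ℝ, x ∉ ({z, -z} : Set ℝ) :=
      measure_eq_zero_iff_ae_notMem.1 ((Set.toFinite ({z, -z} : Set ℝ)).measure_zero _)
    filter_upwards [h0] with x hx
    unfold phR
    split_ifs with h
    · have hne : |z| ≠ |x| := by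
        intro h1
        rcases abs_eq_abs.1 h1 with h2 | h2
        · exact hx (by simp [h2])
        · exact hx (by simp [h2])
      have hlt : |z| < |x| := lt_of_le_of_ne h hne
      have hv : ‖z / x ^ 2‖ₑ = ENNReal.ofReal (|z| / x ^ 2) := by
        rw [Real.enorm_eq_ofReal_abs, abs_div, abs_of_nonneg (sq_nonneg x)]
      rw [hv]
      rcases le_total 0 x with h3 | h3
      · rw [abs_of_nonneg h3] at hlt
        refine le_add_right ?_
        rw [hf, indicator_of_mem (show x ∈ Ioi |z| from hlt)]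
      · rw [abs_of_nonpos h3] at hlt
        refine le_add_left ?_
        rw [hf, indicator_of_mem (show -x ∈ Ioi |z| from hlt), neg_sq]
    · exact zero_le
  calc ∫⁻ x, phR z x ≤ ∫⁻ x, (f x + f (-x)) := lintegral_mono_ae hle
    _ = (∫⁻ x, f x) + ∫⁻ x, f (-x) := lintegral_add_left hfm _
    _ = (∫⁻ x, f x) + ∫⁻ x, f x := by
        congr 1
        exact (Measure.measurePreserving_neg (volume : Measure ℝ)).lintegral_comp hfm
    _ ≤ 1 + 1 := add_le_add hfi hfi
    _ = 2 := by norm_num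

/-! ## The main estimate -/

section main

variable {β : Type} [Fintype β] [DecidableEq β] {t : ℕ}

/-- The linear form of the block `b`. -/
noncomputable def lf (g : β → Fin t → ℝ) (b : β) (v : β → Fin t → ℝ) : ℝ := ∑ s, v b s * g b s

omit [Fintype β] [DecidableEq β] in
theorem meas_lf (g : β → Fin t → ℝ) (b : β) : Measurable (lf g b) := by
  unfold lf; fun_prop

omit [Fintype β] in
theorem lf_ne (g : β → Fin t → ℝ) {b b' : β} (h : b ≠ b') (v : β → Fin t → ℝ) (x : Fin t → ℝ) :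
    lf g b (Function.update v b' x) = lf g b v := by
  unfold lf; rw [Function.update_of_ne h]

omit [Fintype β] in
theorem lf_self (g : β → Fin t → ℝ) (b : β) (v : β → Fin t → ℝ) (x : Fin t → ℝ) :
    lf g b (Function.update v b x) = ∑ s, x s * g b s := by
  unfold lf; rw [Function.update_self]

omit [Fintype β] in
theorem prod_ne (g : β → Fin t → ℝ) (S : Finset β) {b' : β} (h : b' ∉ S) (v : β → Fin t → ℝ)
    (x : Fin t → ℝ) : ∏ b ∈ S, lf g b (Function.update v b' x) = ∏ b ∈ S, lf g b v := by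
  refine Finset.prod_congr rfl fun b hb => lf_ne g ?_ v x
  rintro rfl
  exact h hb

omit [Fintype β] [DecidableEq β] in
theorem meas_prod (g : β → Fin t → ℝ) (S : Finset β) : Measurable fun v => ∏ b ∈ S, lf g b v :=
  Finset.measurable_fun_prod S fun b _ => meas_lf g b

variable (μ : β → Fin t → Measure ℝ) [∀ b s, IsProbabilityMeasure (μ b s)]

theorem int_one (b : β) {f : (Fin t → ℝ) → ℝ≥0∞} (hf : Measurable f) :
    ∫⁻ v, f (v b) ∂(PP μ) = ∫⁻ x, f x ∂(Measure.pi (μ b)) := by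
  unfold PP
  have h := int_indep (fun b => Measure.pi (μ b)) b hf (Ψ := fun _ => 1) measurable_const
    (fun _ _ => rfl)
  simp only [mul_one, lintegral_const, measure_univ] at h
  exact h

theorem meas_abs (g : Fin t → ℝ) : Measurable fun x : Fin t → ℝ => ‖∑ s, x s * g s‖ₑ := by
  fun_prop

theorem term_le (hBlock : SBlock) (hMom : SMom) (A B : ℝ≥0)
    (hB : ∀ b s, μ b s ≤ (B : ℝ≥0∞) • (volume : Measure ℝ))
    (hA : ∀ b s, ∫⁻ x, ‖x‖ₑ ∂(μ b s) ≤ A) (g h : β → Fin t → ℝ) (s0 : β → Fin t)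
    (hg1 : ∀ b, |g b (s0 b)| = 1) (hh0 : ∀ b, h b (s0 b) = 0) (hg : ∀ b s, |g b s| ≤ 1)
    (b0 b : β) (hb : b0 ≠ b) (ζ : (β → Fin t → ℝ) → ℝ) (hζ : Measurable ζ)
    (hu : ∀ v x, ζ (Function.update v b x) = ζ v) (φ : ℝ → ℝ → ℝ≥0∞)
    (hφ : Measurable (Function.uncurry φ)) (hφ2 : ∀ z, ∫⁻ x, φ z x ≤ 2) :
    ∫⁻ v, ‖lf g b0 v‖ₑ * (‖lf h b v‖ₑ * φ (ζ v) (lf g b v)) ∂(PP μ) ≤
      t * A * (2 * A * B * ∑ s, ‖h b s‖ₑ) := by
  have hm1 : Measurable fun v => φ (ζ v) (lf g b v) :=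
    hφ.comp (hζ.prodMk (meas_lf g b))
  have hm : Measurable fun v => ‖lf g b0 v‖ₑ * (‖lf h b v‖ₑ * φ (ζ v) (lf g b v)) :=
    (meas_lf g b0).enorm.mul ((meas_lf h b).enorm.mul hm1)
  have hfirst : ∫⁻ v, ‖lf g b0 v‖ₑ ∂(PP μ) ≤ t * A := by
    have h1 := int_one μ b0 (meas_abs (g b0))
    unfold lf
    rw [h1]
    exact (hMom t (μ b0) A B (hB b0) (hA b0) (g b0) (s0 b0) (hg1 b0) (hg b0)).1
  have hin : ∀ v : β → Fin t → ℝ, ∫⁻ x, ‖lf g b0 (Function.update v b x)‖ₑ *
      (‖lf h b (Function.update v b x)‖ₑ *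
        φ (ζ (Function.update v b x)) (lf g b (Function.update v b x))) ∂(Measure.pi (μ b)) ≤
      ‖lf g b0 v‖ₑ * (B * A * (∑ s, ‖h b s‖ₑ) * 2) := by
    intro v
    simp only [lf_ne g hb, lf_self, hu]
    have hm2 : Measurable fun x : Fin t → ℝ =>
        ‖∑ s, x s * h b s‖ₑ * φ (ζ v) (∑ s, x s * g b s) := by
      refine (meas_abs (h b)).mul ?_
      have : Measurable fun x : Fin t → ℝ => (ζ v, ∑ s, x s * g b s) := by fun_prop
      exact hφ.comp this
    rw [lintegral_const_mul _ hm2]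
    refine mul_le_mul_right ?_ _
    have hm3 : Measurable (φ (ζ v)) := hφ.comp (measurable_const.prodMk measurable_id)
    refine (hBlock t (μ b) A B (hB b) (hA b) (g b) (h b) (s0 b) (hg1 b) (hh0 b) (φ (ζ v))
      hm3).trans ?_
    exact mul_le_mul_right (hφ2 _) _
  unfold PP
  rw [int_block (fun b => Measure.pi (μ b)) hm b]
  refine (lintegral_mono hin).trans ?_
  rw [lintegral_mul_const _ (meas_lf g b0).enorm]
  refine (mul_le_mul_left hfirst _).trans (le_of_eq ?_)
  ring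

/-- The term with `λ`. -/
theorem lam_gen (A : ℝ≥0) (g : β → Fin t → ℝ) (b0 : β)
    (hfirst : ∫⁻ v, ‖lf g b0 v‖ₑ ∂(PP μ) ≤ t * A) (L R : Finset β) (h0L : b0 ∉ L) (h0R : b0 ∉ R)
    (hLR : Disjoint L R) (z p : ℝ) (hz : 0 < z) (hp : p ≤ 1) (C1 C2 : ℝ≥0∞)
    (h1 : ∀ b ∈ L, ∫⁻ x, ‖∑ s, x s * g b s‖ₑ ^ p ∂(Measure.pi (μ b)) ≤ C1)
    (h2 : ∀ b ∈ R, ∫⁻ x, ‖∑ s, x s * g b s‖ₑ ^ (-p) ∂(Measure.pi (μ b)) ≤ C2) :
    ∫⁻ v, {v : β → Fin t → ℝ | |z * (∏ b ∈ L, lf g b v) / ∏ b ∈ R, lf g b v| ≤ 1}.indicator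
        (fun v => ‖z * (∏ b ∈ L, lf g b v) / ∏ b ∈ R, lf g b v‖ₑ * ‖lf g b0 v‖ₑ) v ∂(PP μ) ≤
      ENNReal.ofReal (z ^ p) * (t * A * (C1 ^ L.card * C2 ^ R.card)) := by
  set F : β → (Fin t → ℝ) → ℝ≥0∞ := fun b x =>
    if b ∈ L then ‖∑ s, x s * g b s‖ₑ ^ p else ‖∑ s, x s * g b s‖ₑ ^ (-p) with hF
  have hFm : ∀ b, Measurable (F b) := by
    intro b
    simp only [hF]
    split_ifs
    · exact (meas_abs (g b)).pow_const _
    · exact (meas_abs (g b)).pow_const _
  have hPm : Measurable fun v : β → Fin t → ℝ => ∏ b ∈ L ∪ R, F b (v b) :=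
    Finset.measurable_fun_prod _ fun b _ => (hFm b).comp (measurable_pi_apply b)
  have hpt : ∀ v : β → Fin t → ℝ,
      {v : β → Fin t → ℝ | |z * (∏ b ∈ L, lf g b v) / ∏ b ∈ R, lf g b v| ≤ 1}.indicator
        (fun v => ‖z * (∏ b ∈ L, lf g b v) / ∏ b ∈ R, lf g b v‖ₑ * ‖lf g b0 v‖ₑ) v ≤
      ENNReal.ofReal (z ^ p) * (‖lf g b0 v‖ₑ * ∏ b ∈ L ∪ R, F b (v b)) := by
    intro v
    rw [indicator_apply]
    split_ifs with hv
    · rw [mem_ofPred_eq] at hv
      by_cases hzero : z * (∏ b ∈ L, lf g b v) / ∏ b ∈ R, lf g b v = 0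
      · rw [hzero]; simp
      have hL0 : (∏ b ∈ L, lf g b v) ≠ 0 := by
        intro h0; apply hzero; rw [h0, mul_zero, zero_div]
      have hR0 : (∏ b ∈ R, lf g b v) ≠ 0 := by
        intro h0; apply hzero; rw [h0, div_zero]
      rw [Finset.prod_ne_zero_iff] at hL0 hR0
      set Z := z * (∏ b ∈ L, lf g b v) / ∏ b ∈ R, lf g b v with hZ
      have hZ0 : 0 < |Z| := abs_pos.2 hzero
      have hle : ‖Z‖ₑ ≤ ENNReal.ofReal (|Z| ^ p) := by
        rw [Real.enorm_eq_ofReal_abs]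
        refine ENNReal.ofReal_le_ofReal ?_
        calc |Z| = |Z| ^ (1 : ℝ) := (Real.rpow_one _).symm
          _ ≤ |Z| ^ p := Real.rpow_le_rpow_of_exponent_ge hZ0 hv hp
      have hpow : ENNReal.ofReal (|Z| ^ p) =
          ENNReal.ofReal (z ^ p) * ∏ b ∈ L ∪ R, F b (v b) := by
        rw [Finset.prod_union hLR]
        have e1 : ∏ b ∈ L, F b (v b) = ENNReal.ofReal (∏ b ∈ L, |lf g b v| ^ p) := by
          rw [ENNReal.ofReal_prod_of_nonneg fun b _ => by positivity]
          refine Finset.prod_congr rfl fun b hb => ?_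
          simp only [hF, if_pos hb]
          have hpos : 0 < |∑ s, v b s * g b s| := abs_pos.2 (hL0 b hb)
          rw [Real.enorm_eq_ofReal_abs, ENNReal.ofReal_rpow_of_pos hpos]
          rfl
        have e2 : ∏ b ∈ R, F b (v b) = ENNReal.ofReal (∏ b ∈ R, |lf g b v| ^ (-p)) := by
          rw [ENNReal.ofReal_prod_of_nonneg fun b _ => by positivity]
          refine Finset.prod_congr rfl fun b hb => ?_
          have hbL : b ∉ L := fun h => (Finset.disjoint_left.1 hLR h) hb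
          simp only [hF, if_neg hbL]
          have hpos : 0 < |∑ s, v b s * g b s| := abs_pos.2 (hR0 b hb)
          rw [Real.enorm_eq_ofReal_abs, ENNReal.ofReal_rpow_of_pos hpos]
          rfl
        rw [e1, e2, ← ENNReal.ofReal_mul (by positivity), ← ENNReal.ofReal_mul (by positivity)]
        congr 1
        rw [hZ, abs_div, abs_mul, abs_of_pos hz, Finset.abs_prod, Finset.abs_prod,
          Real.div_rpow (by positivity) (by positivity),
          Real.mul_rpow hz.le (by positivity), Real.finsetProd_rpow _ _ (fun b _ => abs_nonneg _),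
          Finset.prod_congr rfl (fun b (hb : b ∈ R) =>
            Real.rpow_neg (abs_nonneg (lf g b v)) p), Finset.prod_inv_distrib,
          Real.finsetProd_rpow _ _ (fun b _ => abs_nonneg _)]
        ring
      calc ‖Z‖ₑ * ‖lf g b0 v‖ₑ ≤ (ENNReal.ofReal (z ^ p) * ∏ b ∈ L ∪ R, F b (v b)) *
            ‖lf g b0 v‖ₑ := mul_le_mul_left (hle.trans hpow.le) _
        _ = _ := by ring
    · exact zero_le
  refine (lintegral_mono hpt).trans ?_
  have hm' : Measurable fun v => ‖lf g b0 v‖ₑ * ∏ b ∈ L ∪ R, F b (v b) :=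
    (meas_lf g b0).enorm.mul hPm
  rw [lintegral_const_mul _ hm']
  refine mul_le_mul_right ?_ _
  have hind : ∫⁻ v, ‖lf g b0 v‖ₑ * ∏ b ∈ L ∪ R, F b (v b) ∂(PP μ) =
      (∫⁻ v, ‖lf g b0 v‖ₑ ∂(PP μ)) * ∫⁻ v, ∏ b ∈ L ∪ R, F b (v b) ∂(PP μ) := by
    have h3 := int_indep (fun b => Measure.pi (μ b)) b0 (meas_abs (g b0)) hPm ?_
    · have h4 := int_one μ b0 (meas_abs (g b0))
      unfold lf
      rw [h4]
      exact h3
    · intro v x
      refine Finset.prod_congr rfl fun b hb => ?_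
      rw [Function.update_of_ne]
      rintro rfl
      rcases Finset.mem_union.1 hb with h | h
      · exact h0L h
      · exact h0R h
  rw [hind]
  refine mul_le_mul' hfirst ?_
  have h5 := int_prod (fun b => Measure.pi (μ b)) (L ∪ R) F hFm
    (fun b => if b ∈ L then C1 else C2) ?_
  · refine h5.trans (le_of_eq ?_)
    rw [Finset.prod_union hLR]
    congr 1
    · rw [Finset.prod_congr rfl fun b (hb : b ∈ L) => if_pos hb, Finset.prod_const]
    · rw [Finset.prod_congr rfl fun b (hb : b ∈ R) =>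
        if_neg (fun h : b ∈ L => (Finset.disjoint_left.1 hLR h) hb), Finset.prod_const]
  · intro b hb
    by_cases hbL : b ∈ L
    · simp only [hF, if_pos hbL]
      exact h1 b hbL
    · simp only [hF, if_neg hbL]
      rcases Finset.mem_union.1 hb with h | h
      · exact absurd h hbL
      · exact h2 b h

theorem pow_le_one_add (x : ℝ≥0∞) (q : ℝ) (h0 : 0 ≤ q) (h1 : q ≤ 1) : x ^ q ≤ 1 + x := by
  rcases le_total x 1 with h | h
  · exact (ENNReal.rpow_le_one h h0).trans (le_add_right le_rfl)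
  · calc x ^ q ≤ x ^ (1 : ℝ) := ENNReal.rpow_le_rpow_of_exponent_le h h1
      _ = x := ENNReal.rpow_one x
      _ ≤ 1 + x := le_add_left le_rfl

/-- The term with `λ`, final form. -/
theorem lam_le (hMom : SMom) (A B : ℝ≥0)
    (hB : ∀ b s, μ b s ≤ (B : ℝ≥0∞) • (volume : Measure ℝ))
    (hA : ∀ b s, ∫⁻ x, ‖x‖ₑ ∂(μ b s) ≤ A) (g : β → Fin t → ℝ) (s0 : β → Fin t)
    (hg1 : ∀ b, |g b (s0 b)| = 1) (hg : ∀ b s, |g b s| ≤ 1)
    (b0 : β) (L R : Finset β) (h0L : b0 ∉ L) (h0R : b0 ∉ R)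
    (hLR : Disjoint L R) (z θ : ℝ) (hz : 0 < z) (hθ0 : 0 ≤ θ) (hθ1 : θ ≤ 1 / 2)
    (hθL : θ * L.card ≤ 1 / 2) (hθR : θ * R.card ≤ 1 / 2) :
    ∫⁻ v, {v : β → Fin t → ℝ | |z * (∏ b ∈ L, lf g b v) / ∏ b ∈ R, lf g b v| ≤ 1}.indicator
        (fun v => ‖z * (∏ b ∈ L, lf g b v) / ∏ b ∈ R, lf g b v‖ₑ * ‖lf g b0 v‖ₑ) v ∂(PP μ) ≤
      ENNReal.ofReal (Real.exp (-(θ * |Real.log z|))) *
        (t * A * ((1 + t * A) * (1 + 4 * B))) := by
  have hM := fun b => hMom t (μ b) A B (hB b) (hA b) (g b) (s0 b) (hg1 b) (hg b)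
  have hfirst : ∫⁻ v, ‖lf g b0 v‖ₑ ∂(PP μ) ≤ t * A := by
    have h1 := int_one μ b0 (meas_abs (g b0))
    unfold lf
    rw [h1]
    exact (hM b0).1
  have hpw1 : ∀ m : ℕ, θ * m ≤ 1 / 2 → (((t : ℝ≥0∞) * A) ^ θ) ^ m ≤ 1 + t * A := by
    intro m hm
    rw [← ENNReal.rpow_natCast, ← ENNReal.rpow_mul]
    exact pow_le_one_add _ _ (by positivity) (by linarith)
  have hpw2 : ∀ m : ℕ, θ * m ≤ 1 / 2 →
      ((1 + 4 * (B : ℝ≥0∞)) ^ (2 * θ)) ^ m ≤ 1 + 4 * B := by
    intro m hm
    rw [← ENNReal.rpow_natCast, ← ENNReal.rpow_mul]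
    calc (1 + 4 * (B : ℝ≥0∞)) ^ (2 * θ * m) ≤ (1 + 4 * (B : ℝ≥0∞)) ^ (1 : ℝ) :=
          ENNReal.rpow_le_rpow_of_exponent_le (le_add_right le_rfl) (by linarith)
      _ = _ := ENNReal.rpow_one _
  rcases le_total z 1 with hz1 | hz1
  · have hexp : Real.exp (-(θ * |Real.log z|)) = z ^ θ := by
      rw [Real.rpow_def_of_pos hz, abs_of_nonpos (Real.log_nonpos hz.le hz1)]
      congr 1; ring
    rw [hexp]
    refine (lam_gen μ A g b0 hfirst L R h0L h0R hLR z θ hz (by linarith)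
      (((t : ℝ≥0∞) * A) ^ θ) ((1 + 4 * (B : ℝ≥0∞)) ^ (2 * θ))
      (fun b _ => (hM b).2.1 θ hθ0 (by linarith)) (fun b _ => (hM b).2.2 θ hθ0 hθ1)).trans ?_
    refine mul_le_mul_right (mul_le_mul_right ?_ _) _
    exact mul_le_mul' (hpw1 _ hθL) (hpw2 _ hθR)
  · have hexp : Real.exp (-(θ * |Real.log z|)) = z ^ (-θ) := by
      rw [Real.rpow_def_of_pos hz, abs_of_nonneg (Real.log_nonneg hz1)]
      congr 1; ring
    rw [hexp]
    refine (lam_gen μ A g b0 hfirst L R h0L h0R hLR z (-θ) hz (by linarith)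
      ((1 + 4 * (B : ℝ≥0∞)) ^ (2 * θ)) (((t : ℝ≥0∞) * A) ^ θ)
      (fun b _ => (hM b).2.2 θ hθ0 hθ1)
      (fun b _ => by rw [neg_neg]; exact (hM b).2.1 θ hθ0 (by linarith))).trans ?_
    refine mul_le_mul_right (mul_le_mul_right ?_ _) _
    rw [mul_comm]
    exact mul_le_mul' (hpw1 _ hθR) (hpw2 _ hθL)

/-- The term `η b0`. -/
theorem eta_le (A : ℝ≥0) (hA : ∀ b s, ∫⁻ x, ‖x‖ₑ ∂(μ b s) ≤ A) (h : β → Fin t → ℝ) (b0 : β) :
    ∫⁻ v, ‖lf h b0 v‖ₑ ∂(PP μ) ≤ A * ∑ s, ‖h b0 s‖ₑ := by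
  have h1 := int_one μ b0 (meas_abs (h b0))
  have h2 : ∫⁻ x, ‖∑ s, x s * h b0 s‖ₑ ∂(Measure.pi (μ b0)) ≤ A * ∑ s, ‖h b0 s‖ₑ := by
    calc ∫⁻ x, ‖∑ s, x s * h b0 s‖ₑ ∂(Measure.pi (μ b0))
        ≤ ∫⁻ x, ∑ s, ‖x s‖ₑ * ‖h b0 s‖ₑ ∂(Measure.pi (μ b0)) := by
          refine lintegral_mono fun x => ?_
          refine (enorm_sum_le _ _).trans (le_of_eq ?_)
          exact Finset.sum_congr rfl fun s _ => enorm_mul _ _
      _ = ∑ s, ∫⁻ x, ‖x s‖ₑ * ‖h b0 s‖ₑ ∂(Measure.pi (μ b0)) := by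
          refine lintegral_finsetSum _ fun s _ => ?_
          fun_prop
      _ ≤ ∑ s, A * ‖h b0 s‖ₑ := by
          refine Finset.sum_le_sum fun s _ => ?_
          rw [lintegral_mul_const _ (by fun_prop)]
          refine mul_le_mul_left ?_ _
          have h3 : ∫⁻ x : Fin t → ℝ, ‖x s‖ₑ ∂(Measure.pi (μ b0)) =
              ∫⁻ x, ‖x‖ₑ ∂(μ b0 s) := by
            have h4 := int_indep (μ b0) s (f := fun x : ℝ => ‖x‖ₑ) (by fun_prop)
              (Ψ := fun _ => 1) measurable_const (fun _ _ => rfl)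
            simp only [mul_one, lintegral_const, measure_univ] at h4
            exact h4
          rw [h3]
          exact hA b0 s
      _ = _ := by rw [Finset.mul_sum]
  unfold lf
  rw [h1]
  exact h2

end main

theorem sFix : SBlock → SMom → SFix := by
  intro hBlock hMom β _ _ t μ _ A B hB hA g h s0 hg1 hh0 hg b0 L R h0L h0R hLR z la θ hz hθ0
    hθ1 hθL hθR
  classical
  -- the functions without one block
  set ζL : β → (β → Fin t → ℝ) → ℝ := fun b v =>
    z * (∏ c ∈ L.erase b, lf g c v) / ∏ c ∈ R, lf g c v with hζL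
  set ζR : β → (β → Fin t → ℝ) → ℝ := fun b v =>
    z * (∏ c ∈ L, lf g c v) / ∏ c ∈ R.erase b, lf g c v with hζR
  set Z : (β → Fin t → ℝ) → ℝ := fun v =>
    z * (∏ b ∈ L, lf g b v) / ∏ b ∈ R, lf g b v with hZ
  set T0 : (β → Fin t → ℝ) → ℝ≥0∞ := fun v =>
    {v : β → Fin t → ℝ | |Z v| ≤ 1}.indicator (fun v => ‖Z v‖ₑ * ‖lf g b0 v‖ₑ) v with hT0
  set TL : β → (β → Fin t → ℝ) → ℝ≥0∞ := fun b v =>
    ‖lf g b0 v‖ₑ * (‖lf h b v‖ₑ * phL (ζL b v) (lf g b v)) with hTL
  set TR : β → (β → Fin t → ℝ) → ℝ≥0∞ := fun b v =>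
    ‖lf g b0 v‖ₑ * (‖lf h b v‖ₑ * phR (ζR b v) (lf g b v)) with hTR
  have mZ : Measurable Z := ((meas_prod g L).const_mul z).div (meas_prod g R)
  have mζL : ∀ b, Measurable (ζL b) := fun b =>
    ((meas_prod g (L.erase b)).const_mul z).div (meas_prod g R)
  have mζR : ∀ b, Measurable (ζR b) := fun b =>
    ((meas_prod g L).const_mul z).div (meas_prod g (R.erase b))
  have mT0 : Measurable T0 := by
    refine Measurable.indicator (mZ.enorm.mul (meas_lf g b0).enorm) ?_
    exact measurableSet_le (by fun_prop) measurable_const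
  have mTL : ∀ b, Measurable (TL b) := fun b =>
    (meas_lf g b0).enorm.mul ((meas_lf h b).enorm.mul
      (meas_phL.comp ((mζL b).prodMk (meas_lf g b))))
  have mTR : ∀ b, Measurable (TR b) := fun b =>
    (meas_lf g b0).enorm.mul ((meas_lf h b).enorm.mul
      (meas_phR.comp ((mζR b).prodMk (meas_lf g b))))
  -- pointwise bound
  have hpt : ∀ v, {v : β → Fin t → ℝ | |Z v| ≤ 1}.indicator
        (fun v => ‖Z v * lf g b0 v * (la + lf h b0 v / lf g b0 v +
            ∑ b ∈ L, lf h b v / lf g b v - ∑ b ∈ R, lf h b v / lf g b v)‖ₑ) v ≤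
      ‖la‖ₑ * T0 v + (‖lf h b0 v‖ₑ + (∑ b ∈ L, TL b v + ∑ b ∈ R, TR b v)) := by
    intro v
    rw [indicator_apply]
    split_ifs with hv
    · have hv' : |Z v| ≤ 1 := hv
      have hZ1 : ‖Z v‖ₑ ≤ 1 := by
        rw [Real.enorm_eq_ofReal_abs]
        exact ENNReal.ofReal_le_one.2 hv'
      have e0 : T0 v = ‖Z v‖ₑ * ‖lf g b0 v‖ₑ := by
        simp only [hT0]
        rw [indicator_of_mem hv]
      have e1 : Z v * lf g b0 v * (la + lf h b0 v / lf g b0 v +
            ∑ b ∈ L, lf h b v / lf g b v - ∑ b ∈ R, lf h b v / lf g b v) =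
          la * (Z v * lf g b0 v) + (Z v * (lf g b0 v * (lf h b0 v / lf g b0 v)) +
            (∑ b ∈ L, lf g b0 v * (Z v * (lf h b v / lf g b v)) -
              ∑ b ∈ R, lf g b0 v * (Z v * (lf h b v / lf g b v)))) := by
        rw [← Finset.mul_sum, ← Finset.mul_sum, ← Finset.mul_sum, ← Finset.mul_sum]
        ring
      rw [e1]
      refine (enorm_add_le _ _).trans (add_le_add ?_ ?_)
      · rw [enorm_mul, enorm_mul, e0]
      refine (enorm_add_le _ _).trans (add_le_add ?_ ?_)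
      · rw [enorm_mul]
        have h1 : ‖lf g b0 v * (lf h b0 v / lf g b0 v)‖ₑ ≤ ‖lf h b0 v‖ₑ := by
          by_cases h0 : lf g b0 v = 0
          · rw [h0]; simp
          · rw [mul_div_cancel₀ _ h0]
        calc ‖Z v‖ₑ * ‖lf g b0 v * (lf h b0 v / lf g b0 v)‖ₑ ≤ 1 * ‖lf h b0 v‖ₑ :=
              mul_le_mul' hZ1 h1
          _ = _ := one_mul _
      refine enorm_sub_le.trans (add_le_add ?_ ?_)
      · refine (enorm_sum_le _ _).trans (Finset.sum_le_sum fun b hb => ?_)
        simp only [hTL]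
        rw [enorm_mul]
        refine mul_le_mul_right ?_ _
        have e2 : Z v = lf g b v * ζL b v := by
          simp only [hZ, hζL]
          rw [← Finset.mul_prod_erase L (fun c => lf g c v) hb]
          ring
        by_cases h0 : lf g b v = 0
        · rw [e2, h0]; simp
        · have e3 : Z v * (lf h b v / lf g b v) = lf h b v * ζL b v := by
            rw [e2]; field_simp
          rw [e3, enorm_mul]
          refine mul_le_mul_right ?_ _
          unfold phL
          rw [if_pos]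
          rw [← e2]; exact hv'
      · refine (enorm_sum_le _ _).trans (Finset.sum_le_sum fun b hb => ?_)
        simp only [hTR]
        rw [enorm_mul]
        refine mul_le_mul_right ?_ _
        have e2 : Z v = ζR b v / lf g b v := by
          simp only [hZ, hζR]
          rw [← Finset.mul_prod_erase R (fun c => lf g c v) hb, div_div, mul_comm (lf g b v)]
        by_cases h0 : lf g b v = 0
        · rw [h0]; simp
        · have e3 : Z v * (lf h b v / lf g b v) = lf h b v * (ζR b v / lf g b v ^ 2) := by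
            rw [e2]; field_simp
          rw [e3, enorm_mul]
          refine mul_le_mul_right ?_ _
          unfold phR
          rw [if_pos]
          rw [e2, abs_div, div_le_one (abs_pos.2 h0)] at hv'
          exact hv'
    · exact zero_le
  -- integrate
  have iL : ∀ b ∈ L, ∫⁻ v, TL b v ∂(PP μ) ≤ t * A * (2 * A * B * ∑ s, ‖h b s‖ₑ) := by
    intro b hb
    have hb0 : b0 ≠ b := by rintro rfl; exact h0L hb
    refine term_le μ hBlock hMom A B hB hA g h s0 hg1 hh0 hg b0 b hb0 (ζL b) (mζL b) ?_ phL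
      meas_phL int_phL
    intro v x
    simp only [hζL]
    rw [prod_ne g _ (Finset.notMem_erase b L),
      prod_ne g _ (fun h => (Finset.disjoint_left.1 hLR hb) h)]
  have iR : ∀ b ∈ R, ∫⁻ v, TR b v ∂(PP μ) ≤ t * A * (2 * A * B * ∑ s, ‖h b s‖ₑ) := by
    intro b hb
    have hb0 : b0 ≠ b := by rintro rfl; exact h0R hb
    refine term_le μ hBlock hMom A B hB hA g h s0 hg1 hh0 hg b0 b hb0 (ζR b) (mζR b) ?_ phR
      meas_phR int_phR
    intro v x
    simp only [hζR]
    rw [prod_ne g _ (Finset.notMem_erase b R),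
      prod_ne g _ (fun h => (Finset.disjoint_left.1 hLR h) hb)]
  have i0 : ∫⁻ v, T0 v ∂(PP μ) ≤ ENNReal.ofReal (Real.exp (-(θ * |Real.log z|))) *
        (t * A * ((1 + t * A) * (1 + 4 * B))) :=
    lam_le μ hMom A B hB hA g s0 hg1 hg b0 L R h0L h0R hLR z θ hz hθ0 hθ1 hθL hθR
  have ie : ∫⁻ v, ‖lf h b0 v‖ₑ ∂(PP μ) ≤ A * ∑ s, ‖h b0 s‖ₑ := eta_le μ A hA h b0
  have mSL : Measurable fun v => ∑ b ∈ L, TL b v :=
    Finset.measurable_fun_sum L fun b _ => mTL b
  have mSR : Measurable fun v => ∑ b ∈ R, TR b v :=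
    Finset.measurable_fun_sum R fun b _ => mTR b
  refine (lintegral_mono hpt).trans ?_
  rw [lintegral_add_left (mT0.const_mul _), lintegral_const_mul _ mT0,
    lintegral_add_left (meas_lf h b0).enorm, lintegral_add_left mSL,
    lintegral_finsetSum _ (fun b _ => mTL b), lintegral_finsetSum _ (fun b _ => mTR b)]
  have eofR : ENNReal.ofReal (|la| * Real.exp (-(θ * |Real.log z|))) =
      ‖la‖ₑ * ENNReal.ofReal (Real.exp (-(θ * |Real.log z|))) := by
    rw [ENNReal.ofReal_mul (abs_nonneg _), Real.enorm_eq_ofReal_abs]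
  rw [eofR]
  calc ‖la‖ₑ * ∫⁻ v, T0 v ∂(PP μ) + (∫⁻ v, ‖lf h b0 v‖ₑ ∂(PP μ) +
        (∑ b ∈ L, ∫⁻ v, TL b v ∂(PP μ) + ∑ b ∈ R, ∫⁻ v, TR b v ∂(PP μ)))
      ≤ ‖la‖ₑ * (ENNReal.ofReal (Real.exp (-(θ * |Real.log z|))) *
        (t * A * ((1 + t * A) * (1 + 4 * B)))) + (A * (∑ s, ‖h b0 s‖ₑ) +
        (∑ b ∈ L, t * A * (2 * A * B * ∑ s, ‖h b s‖ₑ) +
          ∑ b ∈ R, t * A * (2 * A * B * ∑ s, ‖h b s‖ₑ))) := by
        refine add_le_add (mul_le_mul_right i0 _) (add_le_add ie (add_le_add ?_ ?_))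
        · exact Finset.sum_le_sum iL
        · exact Finset.sum_le_sum iR
    _ = _ := by
        rw [← Finset.mul_sum, ← Finset.mul_sum, ← Finset.mul_sum, ← Finset.mul_sum]
        ring

end Pool.Agent.T9h22.TA
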