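import Pool.Agent.T9h20.TA.Spec2
import Pool.Agent.T9h22.TA.H

/-!
# The expectation for fixed `y`, with powers
-/

set_option autoImplicit false
set_option linter.unusedSectionVars false

open MeasureTheory Set
open scoped ENNReal NNReal

namespace Pool.Agent.T9h22.TA

open Pool.Agent.T9h20.TA

theorem meas_phP (p : ℤ) : Measurable (Function.uncurry (phP p)) := by
  unfold phP Function.uncurry
  have h1 : Measurable fun q : ℝ × ℝ => q.1 * q.2 ^ p :=
    measurable_fst.mul (measurable_snd.pow_const p)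
  refine Measurable.ite ?_ ?_ measurable_const
  · exact measurableSet_le (by fun_prop) measurable_const
  · exact ((h1.div measurable_snd).const_mul _).enorm

theorem rpow_sum {β : Type} (x : ℝ≥0∞) (S : Finset β) (e : β → ℝ) (he : ∀ b ∈ S, 0 ≤ e b) :
    ∏ b ∈ S, x ^ e b = x ^ (∑ b ∈ S, e b) := by
  classical
  induction S using Finset.induction_on with
  | empty => simp
  | insert a S ha ih =>
    have h1 : 0 ≤ e a := he a (Finset.mem_insert_self a S)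
    have h2 : 0 ≤ ∑ b ∈ S, e b :=
      Finset.sum_nonneg fun b hb => he b (Finset.mem_insert_of_mem hb)
    rw [Finset.prod_insert ha, Finset.sum_insert ha,
      ih fun b hb => he b (Finset.mem_insert_of_mem hb), ENNReal.rpow_add_of_nonneg _ _ h1 h2]

section main

variable {β : Type} [Fintype β] [DecidableEq β] {t : ℕ}

theorem prodP_ne (g : β → Fin t → ℝ) (p : β → ℤ) (S : Finset β) {b' : β} (h : b' ∉ S)
    (v : β → Fin t → ℝ) (x : Fin t → ℝ) :
    ∏ b ∈ S, lf g b (Function.update v b' x) ^ p b = ∏ b ∈ S, lf g b v ^ p b := by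
  refine Finset.prod_congr rfl fun b hb => ?_
  rw [lf_ne g ?_ v x]
  rintro rfl
  exact h hb

theorem meas_prodP (g : β → Fin t → ℝ) (p : β → ℤ) (S : Finset β) :
    Measurable fun v => ∏ b ∈ S, lf g b v ^ p b :=
  Finset.measurable_fun_prod S fun b _ => (meas_lf g b).pow_const _

variable (μ : β → Fin t → Measure ℝ) [∀ b s, IsProbabilityMeasure (μ b s)]

/-- one factor -/
theorem factor_eq (x q : ℝ) (p : ℤ) (h : x ^ p ≠ 0) :
    ‖x‖ₑ ^ (q * p) = ENNReal.ofReal (|x ^ p| ^ q) := by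
  by_cases hx : x = 0
  · have hp : p = 0 := by
      by_contra hp
      apply h
      rw [hx, zero_zpow _ hp]
    rw [hp]
    simp
  · have hpos : 0 < |x| := abs_pos.2 hx
    rw [Real.enorm_eq_ofReal_abs, ENNReal.ofReal_rpow_of_pos hpos, abs_zpow,
      ← Real.rpow_intCast, ← Real.rpow_mul hpos.le, mul_comm]

/-- The term with `λ`. -/
theorem lam_genP (A : ℝ≥0) (g : β → Fin t → ℝ) (b0 : β)
    (hfirst : ∫⁻ v, ‖lf g b0 v‖ₑ ∂(PP μ) ≤ t * A) (S : Finset β) (h0 : b0 ∉ S) (p : β → ℤ)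
    (z q : ℝ) (hz : 0 < z) (hq : q ≤ 1) (C : β → ℝ≥0∞)
    (h1 : ∀ b ∈ S, ∫⁻ x, ‖∑ s, x s * g b s‖ₑ ^ (q * p b) ∂(Measure.pi (μ b)) ≤ C b) :
    ∫⁻ v, {v : β → Fin t → ℝ | |z * ∏ b ∈ S, lf g b v ^ p b| ≤ 1}.indicator
        (fun v => ‖z * ∏ b ∈ S, lf g b v ^ p b‖ₑ * ‖lf g b0 v‖ₑ) v ∂(PP μ) ≤
      ENNReal.ofReal (z ^ q) * (t * A * ∏ b ∈ S, C b) := by
  set F : β → (Fin t → ℝ) → ℝ≥0∞ := fun b x => ‖∑ s, x s * g b s‖ₑ ^ (q * p b) with hF
  have hFm : ∀ b, Measurable (F b) := fun b => (meas_abs (g b)).pow_const _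
  have hPm : Measurable fun v : β → Fin t → ℝ => ∏ b ∈ S, F b (v b) :=
    Finset.measurable_fun_prod _ fun b _ => (hFm b).comp (measurable_pi_apply b)
  have hpt : ∀ v : β → Fin t → ℝ,
      {v : β → Fin t → ℝ | |z * ∏ b ∈ S, lf g b v ^ p b| ≤ 1}.indicator
        (fun v => ‖z * ∏ b ∈ S, lf g b v ^ p b‖ₑ * ‖lf g b0 v‖ₑ) v ≤
      ENNReal.ofReal (z ^ q) * (‖lf g b0 v‖ₑ * ∏ b ∈ S, F b (v b)) := by
    intro v
    rw [indicator_apply]
    split_ifs with hv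
    · rw [mem_ofPred_eq] at hv
      by_cases hzero : z * ∏ b ∈ S, lf g b v ^ p b = 0
      · rw [hzero]; simp
      have hS0 : (∏ b ∈ S, lf g b v ^ p b) ≠ 0 := by
        intro h0; apply hzero; rw [h0, mul_zero]
      rw [Finset.prod_ne_zero_iff] at hS0
      set Z := z * ∏ b ∈ S, lf g b v ^ p b with hZ
      have hZ0 : 0 < |Z| := abs_pos.2 hzero
      have hle : ‖Z‖ₑ ≤ ENNReal.ofReal (|Z| ^ q) := by
        rw [Real.enorm_eq_ofReal_abs]
        refine ENNReal.ofReal_le_ofReal ?_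
        calc |Z| = |Z| ^ (1 : ℝ) := (Real.rpow_one _).symm
          _ ≤ |Z| ^ q := Real.rpow_le_rpow_of_exponent_ge hZ0 hv hq
      have hpow : ENNReal.ofReal (|Z| ^ q) = ENNReal.ofReal (z ^ q) * ∏ b ∈ S, F b (v b) := by
        have e1 : ∏ b ∈ S, F b (v b) = ENNReal.ofReal (∏ b ∈ S, |lf g b v ^ p b| ^ q) := by
          rw [ENNReal.ofReal_prod_of_nonneg fun b _ => by positivity]
          refine Finset.prod_congr rfl fun b hb => ?_
          exact factor_eq _ q (p b) (hS0 b hb)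
        rw [e1, ← ENNReal.ofReal_mul (by positivity)]
        congr 1
        rw [hZ, abs_mul, abs_of_pos hz, Finset.abs_prod, Real.mul_rpow hz.le (by positivity),
          Real.finsetProd_rpow _ _ (fun b _ => abs_nonneg _)]
      calc ‖Z‖ₑ * ‖lf g b0 v‖ₑ ≤ (ENNReal.ofReal (z ^ q) * ∏ b ∈ S, F b (v b)) *
            ‖lf g b0 v‖ₑ := mul_le_mul_left (hle.trans hpow.le) _
        _ = _ := by ring
    · exact zero_le
  refine (lintegral_mono hpt).trans ?_
  have hm' : Measurable fun v => ‖lf g b0 v‖ₑ * ∏ b ∈ S, F b (v b) :=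
    (meas_lf g b0).enorm.mul hPm
  rw [lintegral_const_mul _ hm']
  refine mul_le_mul_right ?_ _
  have hind : ∫⁻ v, ‖lf g b0 v‖ₑ * ∏ b ∈ S, F b (v b) ∂(PP μ) =
      (∫⁻ v, ‖lf g b0 v‖ₑ ∂(PP μ)) * ∫⁻ v, ∏ b ∈ S, F b (v b) ∂(PP μ) := by
    have h3 := int_indep (fun b => Measure.pi (μ b)) b0 (meas_abs (g b0)) hPm ?_
    · have h4 := int_one μ b0 (meas_abs (g b0))
      unfold lf
      rw [h4]
      exact h3
    · intro v x
      refine Finset.prod_congr rfl fun b hb => ?_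
      rw [Function.update_of_ne]
      rintro rfl
      exact h0 hb
  rw [hind]
  exact mul_le_mul' hfirst (int_prod (fun b => Measure.pi (μ b)) S F hFm C h1)

/-- The moments of the factors. -/
theorem mom_le (hMom : SMom) (A B : ℝ≥0)
    (hB : ∀ b s, μ b s ≤ (B : ℝ≥0∞) • (volume : Measure ℝ))
    (hA : ∀ b s, ∫⁻ x, ‖x‖ₑ ∂(μ b s) ≤ A) (g : β → Fin t → ℝ) (s0 : β → Fin t)
    (hg1 : ∀ b, |g b (s0 b)| = 1) (hg : ∀ b s, |g b s| ≤ 1) (b : β) (e : ℝ) (he : e ≤ 1 / 2)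
    (he' : -(1 / 2) ≤ e) :
    ∫⁻ x, ‖∑ s, x s * g b s‖ₑ ^ e ∂(Measure.pi (μ b)) ≤
      ((t : ℝ≥0∞) * A) ^ (max e 0) * (1 + 4 * (B : ℝ≥0∞)) ^ (2 * max (-e) 0) := by
  have hM := hMom t (μ b) A B (hB b) (hA b) (g b) (s0 b) (hg1 b) (hg b)
  rcases le_total 0 e with h | h
  · rw [max_eq_left h, max_eq_right (by linarith : -e ≤ 0), mul_zero, ENNReal.rpow_zero, mul_one]
    exact hM.2.1 e h (by linarith)
  · rw [max_eq_right h, max_eq_left (by linarith : 0 ≤ -e), ENNReal.rpow_zero, one_mul]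
    have := hM.2.2 (-e) (by linarith) (by linarith)
    rwa [neg_neg] at this

/-- The term with `λ`, final form. -/
theorem lam_leP (hMom : SMom) (A B : ℝ≥0)
    (hB : ∀ b s, μ b s ≤ (B : ℝ≥0∞) • (volume : Measure ℝ))
    (hA : ∀ b s, ∫⁻ x, ‖x‖ₑ ∂(μ b s) ≤ A) (g : β → Fin t → ℝ) (s0 : β → Fin t)
    (hg1 : ∀ b, |g b (s0 b)| = 1) (hg : ∀ b s, |g b s| ≤ 1)
    (b0 : β) (S : Finset β) (p : β → ℤ) (h0 : b0 ∉ S) (z θ : ℝ) (hz : 0 < z) (hθ0 : 0 ≤ θ)
    (hθ1 : θ ≤ 1 / 2) (hθL : θ * (∑ b ∈ S, max (p b : ℝ) 0) ≤ 1 / 2)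
    (hθR : θ * (∑ b ∈ S, max (-(p b : ℝ)) 0) ≤ 1 / 2) :
    ∫⁻ v, {v : β → Fin t → ℝ | |z * ∏ b ∈ S, lf g b v ^ p b| ≤ 1}.indicator
        (fun v => ‖z * ∏ b ∈ S, lf g b v ^ p b‖ₑ * ‖lf g b0 v‖ₑ) v ∂(PP μ) ≤
      ENNReal.ofReal (Real.exp (-(θ * |Real.log z|))) *
        (t * A * ((1 + t * A) * (1 + 4 * B))) := by
  have hfirst : ∫⁻ v, ‖lf g b0 v‖ₑ ∂(PP μ) ≤ t * A := by
    have h1 := int_one μ b0 (meas_abs (g b0))
    unfold lf
    rw [h1]
    exact (hMom t (μ b0) A B (hB b0) (hA b0) (g b0) (s0 b0) (hg1 b0) (hg b0)).1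
  -- each exponent is small
  have hmaxL : ∀ b ∈ S, θ * max (p b : ℝ) 0 ≤ 1 / 2 := by
    intro b hb
    refine le_trans (mul_le_mul_of_nonneg_left ?_ hθ0) hθL
    exact Finset.single_le_sum (f := fun b => max (p b : ℝ) 0) (fun c _ => le_max_right _ _) hb
  have hmaxR : ∀ b ∈ S, θ * max (-(p b : ℝ)) 0 ≤ 1 / 2 := by
    intro b hb
    refine le_trans (mul_le_mul_of_nonneg_left ?_ hθ0) hθR
    exact Finset.single_le_sum (f := fun b => max (-(p b : ℝ)) 0) (fun c _ => le_max_right _ _) hb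
  have hmulmax : ∀ a : ℝ, max (θ * a) 0 = θ * max a 0 := by
    intro a
    rw [mul_max_of_nonneg _ _ hθ0, mul_zero]
  have hprod : ∀ (e f : β → ℝ), (∀ b, 0 ≤ e b) → (∀ b, 0 ≤ f b) → ∑ b ∈ S, e b ≤ 1 / 2 →
      ∑ b ∈ S, f b ≤ 1 / 2 →
      ∏ b ∈ S, (((t : ℝ≥0∞) * A) ^ e b * (1 + 4 * (B : ℝ≥0∞)) ^ (2 * f b)) ≤
        (1 + t * A) * (1 + 4 * B) := by
    intro e f he hf hse hsf
    rw [Finset.prod_mul_distrib, rpow_sum _ _ _ fun b _ => he b,
      rpow_sum _ _ _ fun b _ => mul_nonneg zero_le_two (hf b), ← Finset.mul_sum]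
    refine mul_le_mul' (pow_le_one_add _ _ (Finset.sum_nonneg fun b _ => he b) (by linarith)) ?_
    calc (1 + 4 * (B : ℝ≥0∞)) ^ (2 * ∑ b ∈ S, f b) ≤ (1 + 4 * (B : ℝ≥0∞)) ^ (1 : ℝ) :=
          ENNReal.rpow_le_rpow_of_exponent_le (le_add_right le_rfl) (by linarith)
      _ = _ := ENNReal.rpow_one _
  rcases le_total z 1 with hz1 | hz1
  · have hexp : Real.exp (-(θ * |Real.log z|)) = z ^ θ := by
      rw [Real.rpow_def_of_pos hz, abs_of_nonpos (Real.log_nonpos hz.le hz1)]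
      congr 1; ring
    rw [hexp]
    refine (lam_genP μ A g b0 hfirst S h0 p z θ hz (by linarith)
      (fun b => ((t : ℝ≥0∞) * A) ^ (θ * max (p b : ℝ) 0) *
        (1 + 4 * (B : ℝ≥0∞)) ^ (2 * (θ * max (-(p b : ℝ)) 0))) fun b hb => ?_).trans ?_
    · have h2 := hmaxL b hb
      have h3 := hmaxR b hb
      have h4 : θ * (p b : ℝ) ≤ 1 / 2 :=
        (mul_le_mul_of_nonneg_left (le_max_left _ _) hθ0).trans h2
      have h5 : θ * (-(p b : ℝ)) ≤ 1 / 2 :=
        (mul_le_mul_of_nonneg_left (le_max_left _ _) hθ0).trans h3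
      have h6 := mom_le μ hMom A B hB hA g s0 hg1 hg b (θ * p b) h4 (by linarith)
      rwa [hmulmax, ← mul_neg, hmulmax] at h6
    · refine mul_le_mul_right (mul_le_mul_right ?_ _) _
      refine hprod (fun b => θ * max (p b : ℝ) 0) (fun b => θ * max (-(p b : ℝ)) 0)
        (fun b => mul_nonneg hθ0 (le_max_right _ _)) (fun b => mul_nonneg hθ0 (le_max_right _ _))
        ?_ ?_
      · rw [← Finset.mul_sum]; exact hθL
      · rw [← Finset.mul_sum]; exact hθR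
  · have hexp : Real.exp (-(θ * |Real.log z|)) = z ^ (-θ) := by
      rw [Real.rpow_def_of_pos hz, abs_of_nonneg (Real.log_nonneg hz1)]
      congr 1; ring
    rw [hexp]
    refine (lam_genP μ A g b0 hfirst S h0 p z (-θ) hz (by linarith)
      (fun b => ((t : ℝ≥0∞) * A) ^ (θ * max (-(p b : ℝ)) 0) *
        (1 + 4 * (B : ℝ≥0∞)) ^ (2 * (θ * max (p b : ℝ) 0))) fun b hb => ?_).trans ?_
    · have h2 := hmaxL b hb
      have h3 := hmaxR b hb
      have h4 : θ * (p b : ℝ) ≤ 1 / 2 :=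
        (mul_le_mul_of_nonneg_left (le_max_left _ _) hθ0).trans h2
      have h5 : θ * (-(p b : ℝ)) ≤ 1 / 2 :=
        (mul_le_mul_of_nonneg_left (le_max_left _ _) hθ0).trans h3
      have h6 := mom_le μ hMom A B hB hA g s0 hg1 hg b (-θ * p b) (by linarith) (by linarith)
      have e1 : max (-θ * (p b : ℝ)) 0 = θ * max (-(p b : ℝ)) 0 := by
        rw [← hmulmax]; congr 1; ring
      have e2 : max (-(-θ * (p b : ℝ))) 0 = θ * max (p b : ℝ) 0 := by
        rw [← hmulmax]; congr 1; ring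
      rwa [e1, e2] at h6
    · refine mul_le_mul_right (mul_le_mul_right ?_ _) _
      refine hprod (fun b => θ * max (-(p b : ℝ)) 0) (fun b => θ * max (p b : ℝ) 0)
        (fun b => mul_nonneg hθ0 (le_max_right _ _)) (fun b => mul_nonneg hθ0 (le_max_right _ _))
        ?_ ?_
      · rw [← Finset.mul_sum]; exact hθR
      · rw [← Finset.mul_sum]; exact hθL

end main

theorem sFixP : SBlock → SMom → SPhP → SFixP := by
  intro hBlock hMom hPh β _ _ t μ _ A B hB hA g h s0 hg1 hh0 hg b0 S p h0 z la θ hz hθ0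
    hθ1 hθL hθR
  classical
  set ζ : β → (β → Fin t → ℝ) → ℝ := fun b v =>
    z * ∏ c ∈ S.erase b, lf g c v ^ p c with hζ
  set Z : (β → Fin t → ℝ) → ℝ := fun v => z * ∏ b ∈ S, lf g b v ^ p b with hZ
  set T0 : (β → Fin t → ℝ) → ℝ≥0∞ := fun v =>
    {v : β → Fin t → ℝ | |Z v| ≤ 1}.indicator (fun v => ‖Z v‖ₑ * ‖lf g b0 v‖ₑ) v with hT0
  set TS : β → (β → Fin t → ℝ) → ℝ≥0∞ := fun b v =>
    ‖lf g b0 v‖ₑ * (‖lf h b v‖ₑ * phP (p b) (ζ b v) (lf g b v)) with hTS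
  have mZ : Measurable Z := (meas_prodP g p S).const_mul z
  have mζ : ∀ b, Measurable (ζ b) := fun b => (meas_prodP g p (S.erase b)).const_mul z
  have mT0 : Measurable T0 := by
    refine Measurable.indicator (mZ.enorm.mul (meas_lf g b0).enorm) ?_
    exact measurableSet_le (by fun_prop) measurable_const
  have mTS : ∀ b, Measurable (TS b) := fun b =>
    (meas_lf g b0).enorm.mul ((meas_lf h b).enorm.mul
      ((meas_phP (p b)).comp ((mζ b).prodMk (meas_lf g b))))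
  -- pointwise bound
  have hpt : ∀ v, {v : β → Fin t → ℝ | |Z v| ≤ 1}.indicator
        (fun v => ‖Z v * lf g b0 v * (la + lf h b0 v / lf g b0 v +
            ∑ b ∈ S, (p b : ℝ) * (lf h b v / lf g b v))‖ₑ) v ≤
      ‖la‖ₑ * T0 v + (‖lf h b0 v‖ₑ + ∑ b ∈ S, TS b v) := by
    intro v
    rw [indicator_apply]
    split_ifs with hv
    · have hv' : |Z v| ≤ 1 := hv
      have hZ1 : ‖Z v‖ₑ ≤ 1 := by
        rw [Real.enorm_eq_ofReal_abs]
        exact ENNReal.ofReal_le_one.2 hv'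
      have e0 : T0 v = ‖Z v‖ₑ * ‖lf g b0 v‖ₑ := by
        simp only [hT0]
        rw [indicator_of_mem hv]
      have e1 : Z v * lf g b0 v * (la + lf h b0 v / lf g b0 v +
            ∑ b ∈ S, (p b : ℝ) * (lf h b v / lf g b v)) =
          la * (Z v * lf g b0 v) + (Z v * (lf g b0 v * (lf h b0 v / lf g b0 v)) +
            ∑ b ∈ S, lf g b0 v * (Z v * ((p b : ℝ) * (lf h b v / lf g b v)))) := by
        rw [← Finset.mul_sum, ← Finset.mul_sum]
        ring
      rw [e1]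
      refine (enorm_add_le _ _).trans (add_le_add ?_ ?_)
      · rw [enorm_mul, enorm_mul, e0]
      refine (enorm_add_le _ _).trans (add_le_add ?_ ?_)
      · rw [enorm_mul]
        have h1 : ‖lf g b0 v * (lf h b0 v / lf g b0 v)‖ₑ ≤ ‖lf h b0 v‖ₑ := by
          by_cases h0 : lf g b0 v = 0
          · rw [h0]; simp
          · rw [mul_div_cancel₀ _ h0]
        calc ‖Z v‖ₑ * ‖lf g b0 v * (lf h b0 v / lf g b0 v)‖ₑ ≤ 1 * ‖lf h b0 v‖ₑ :=
              mul_le_mul' hZ1 h1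
          _ = _ := one_mul _
      · refine (enorm_sum_le _ _).trans (Finset.sum_le_sum fun b hb => ?_)
        simp only [hTS]
        rw [enorm_mul]
        refine mul_le_mul_right ?_ _
        have e2 : Z v = ζ b v * lf g b v ^ p b := by
          simp only [hZ, hζ]
          rw [← Finset.mul_prod_erase S (fun c => lf g c v ^ p c) hb]
          ring
        have e3 : Z v * ((p b : ℝ) * (lf h b v / lf g b v)) =
            lf h b v * ((p b : ℝ) * (ζ b v * lf g b v ^ p b / lf g b v)) := by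
          rw [e2]; ring
        rw [e3, enorm_mul]
        refine mul_le_mul_right ?_ _
        unfold phP
        rw [if_pos]
        rw [← e2]; exact hv'
    · exact zero_le
  -- integrate
  have iS : ∀ b ∈ S, ∫⁻ v, TS b v ∂(PP μ) ≤ t * A * (2 * A * B * ∑ s, ‖h b s‖ₑ) := by
    intro b hb
    have hb0 : b0 ≠ b := by rintro rfl; exact h0 hb
    refine term_le μ hBlock hMom A B hB hA g h s0 hg1 hh0 hg b0 b hb0 (ζ b) (mζ b) ?_
      (phP (p b)) (meas_phP (p b)) (hPh (p b))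
    intro v x
    simp only [hζ]
    rw [prodP_ne g p _ (Finset.notMem_erase b S)]
  have i0 : ∫⁻ v, T0 v ∂(PP μ) ≤ ENNReal.ofReal (Real.exp (-(θ * |Real.log z|))) *
        (t * A * ((1 + t * A) * (1 + 4 * B))) :=
    lam_leP μ hMom A B hB hA g s0 hg1 hg b0 S p h0 z θ hz hθ0 hθ1 hθL hθR
  have ie : ∫⁻ v, ‖lf h b0 v‖ₑ ∂(PP μ) ≤ A * ∑ s, ‖h b0 s‖ₑ := eta_le μ A hA h b0
  refine (lintegral_mono hpt).trans ?_
  rw [lintegral_add_left (mT0.const_mul _), lintegral_const_mul _ mT0,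
    lintegral_add_left (meas_lf h b0).enorm,
    lintegral_finsetSum _ (fun b _ => mTS b)]
  have eofR : ENNReal.ofReal (|la| * Real.exp (-(θ * |Real.log z|))) =
      ‖la‖ₑ * ENNReal.ofReal (Real.exp (-(θ * |Real.log z|))) := by
    rw [ENNReal.ofReal_mul (abs_nonneg _), Real.enorm_eq_ofReal_abs]
  rw [eofR]
  calc ‖la‖ₑ * ∫⁻ v, T0 v ∂(PP μ) + (∫⁻ v, ‖lf h b0 v‖ₑ ∂(PP μ) +
        ∑ b ∈ S, ∫⁻ v, TS b v ∂(PP μ))
      ≤ ‖la‖ₑ * (ENNReal.ofReal (Real.exp (-(θ * |Real.log z|))) *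
        (t * A * ((1 + t * A) * (1 + 4 * B)))) + (A * (∑ s, ‖h b0 s‖ₑ) +
        ∑ b ∈ S, t * A * (2 * A * B * ∑ s, ‖h b s‖ₑ)) := by
        refine add_le_add (mul_le_mul_right i0 _) (add_le_add ie ?_)
        exact Finset.sum_le_sum iS
    _ = _ := by
        rw [← Finset.mul_sum, ← Finset.mul_sum]
        ring

end Pool.Agent.T9h22.TA
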