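import Pool.Agent.T9h20.TA.Spec3
import Pool.Agent.T9h22.TA.HP

/-!
# The expectation for fixed `y`, with powers, one deterministic product
-/

set_option autoImplicit false
set_option linter.unusedSectionVars false

open MeasureTheory Set
open scoped ENNReal NNReal

namespace Pool.Agent.T9h22.TA

open Pool.Agent.T9h20.TA

section main

variable {β : Type} [Fintype β] [DecidableEq β] {t : ℕ}
  (μ : β → Fin t → Measure ℝ) [∀ b s, IsProbabilityMeasure (μ b s)]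

theorem isProb_PP : IsProbabilityMeasure (PP μ) := by unfold PP; infer_instance

theorem term_leQ (hBlock : SBlock) (A B : ℝ≥0)
    (hB : ∀ b s, μ b s ≤ (B : ℝ≥0∞) • (volume : Measure ℝ))
    (hA : ∀ b s, ∫⁻ x, ‖x‖ₑ ∂(μ b s) ≤ A) (g h : β → Fin t → ℝ) (s0 : β → Fin t)
    (hg1 : ∀ b, |g b (s0 b)| = 1) (hh0 : ∀ b, h b (s0 b) = 0)
    (b : β) (ζ : (β → Fin t → ℝ) → ℝ) (hζ : Measurable ζ)
    (hu : ∀ v x, ζ (Function.update v b x) = ζ v) (φ : ℝ → ℝ → ℝ≥0∞)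
    (hφ : Measurable (Function.uncurry φ)) (hφ2 : ∀ z, ∫⁻ x, φ z x ≤ 2) :
    ∫⁻ v, ‖lf h b v‖ₑ * φ (ζ v) (lf g b v) ∂(PP μ) ≤ 2 * A * B * ∑ s, ‖h b s‖ₑ := by
  have hm1 : Measurable fun v => φ (ζ v) (lf g b v) :=
    hφ.comp (hζ.prodMk (meas_lf g b))
  have hm : Measurable fun v => ‖lf h b v‖ₑ * φ (ζ v) (lf g b v) :=
    (meas_lf h b).enorm.mul hm1
  have hin : ∀ v : β → Fin t → ℝ, ∫⁻ x, ‖lf h b (Function.update v b x)‖ₑ *
        φ (ζ (Function.update v b x)) (lf g b (Function.update v b x)) ∂(Measure.pi (μ b)) ≤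
      B * A * (∑ s, ‖h b s‖ₑ) * 2 := by
    intro v
    simp only [lf_self, hu]
    have hm3 : Measurable (φ (ζ v)) := hφ.comp (measurable_const.prodMk measurable_id)
    refine (hBlock t (μ b) A B (hB b) (hA b) (g b) (h b) (s0 b) (hg1 b) (hh0 b) (φ (ζ v))
      hm3).trans ?_
    exact mul_le_mul_right (hφ2 _) _
  have hP : ∫⁻ _v : β → Fin t → ℝ, (B * A * (∑ s, ‖h b s‖ₑ) * 2 : ℝ≥0∞) ∂(PP μ) =
      B * A * (∑ s, ‖h b s‖ₑ) * 2 := by
    have := isProb_PP μ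
    rw [lintegral_const, measure_univ, mul_one]
  have h1 : ∫⁻ v, ‖lf h b v‖ₑ * φ (ζ v) (lf g b v) ∂(PP μ) ≤
      ∫⁻ _v : β → Fin t → ℝ, (B * A * (∑ s, ‖h b s‖ₑ) * 2 : ℝ≥0∞) ∂(PP μ) := by
    unfold PP
    rw [int_block (fun b => Measure.pi (μ b)) hm b]
    exact lintegral_mono hin
  rw [hP] at h1
  refine h1.trans (le_of_eq ?_)
  ring

/-- The term with `λ`. -/
theorem lam_genQ (g : β → Fin t → ℝ) (S : Finset β) (p : β → ℤ)
    (z q : ℝ) (hz : 0 < z) (hq : q ≤ 1) (C : β → ℝ≥0∞)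
    (h1 : ∀ b ∈ S, ∫⁻ x, ‖∑ s, x s * g b s‖ₑ ^ (q * p b) ∂(Measure.pi (μ b)) ≤ C b) :
    ∫⁻ v, {v : β → Fin t → ℝ | |z * ∏ b ∈ S, lf g b v ^ p b| ≤ 1}.indicator
        (fun v => ‖z * ∏ b ∈ S, lf g b v ^ p b‖ₑ) v ∂(PP μ) ≤
      ENNReal.ofReal (z ^ q) * ∏ b ∈ S, C b := by
  set F : β → (Fin t → ℝ) → ℝ≥0∞ := fun b x => ‖∑ s, x s * g b s‖ₑ ^ (q * p b) with hF
  have hFm : ∀ b, Measurable (F b) := fun b => (meas_abs (g b)).pow_const _
  have hPm : Measurable fun v : β → Fin t → ℝ => ∏ b ∈ S, F b (v b) :=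
    Finset.measurable_fun_prod _ fun b _ => (hFm b).comp (measurable_pi_apply b)
  have hpt : ∀ v : β → Fin t → ℝ,
      {v : β → Fin t → ℝ | |z * ∏ b ∈ S, lf g b v ^ p b| ≤ 1}.indicator
        (fun v => ‖z * ∏ b ∈ S, lf g b v ^ p b‖ₑ) v ≤
      ENNReal.ofReal (z ^ q) * ∏ b ∈ S, F b (v b) := by
    intro v
    rw [indicator_apply]
    split_ifs with hv
    · rw [mem_ofPred_eq] at hv
      by_cases hzero : z * ∏ b ∈ S, lf g b v ^ p b = 0
      · rw [hzero]; simp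
      have hS0 : (∏ b ∈ S, lf g b v ^ p b) ≠ 0 := by
        intro h0; apply hzero; rw [h0, mul_zero]
      rw [Finset.prod_ne_zero_iff] at hS0
      set Z := z * ∏ b ∈ S, lf g b v ^ p b with hZ
      have hZ0 : 0 < |Z| := abs_pos.2 hzero
      have hle : ‖Z‖ₑ ≤ ENNReal.ofReal (|Z| ^ q) := by
        rw [Real.enorm_eq_ofReal_abs]
        refine ENNReal.ofReal_le_ofReal ?_
        calc |Z| = |Z| ^ (1 : ℝ) := (Real.rpow_one _).symm
          _ ≤ |Z| ^ q := Real.rpow_le_rpow_of_exponent_ge hZ0 hv hq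
      have hpow : ENNReal.ofReal (|Z| ^ q) = ENNReal.ofReal (z ^ q) * ∏ b ∈ S, F b (v b) := by
        have e1 : ∏ b ∈ S, F b (v b) = ENNReal.ofReal (∏ b ∈ S, |lf g b v ^ p b| ^ q) := by
          rw [ENNReal.ofReal_prod_of_nonneg fun b _ => by positivity]
          refine Finset.prod_congr rfl fun b hb => ?_
          exact factor_eq _ q (p b) (hS0 b hb)
        rw [e1, ← ENNReal.ofReal_mul (by positivity)]
        congr 1
        rw [hZ, abs_mul, abs_of_pos hz, Finset.abs_prod, Real.mul_rpow hz.le (by positivity),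
          Real.finsetProd_rpow _ _ (fun b _ => abs_nonneg _)]
      exact hle.trans hpow.le
    · exact zero_le
  refine (lintegral_mono hpt).trans ?_
  rw [lintegral_const_mul _ hPm]
  refine mul_le_mul_right ?_ _
  exact int_prod (fun b => Measure.pi (μ b)) S F hFm C h1

/-- The term with `λ`, final form. -/
theorem lam_leQ (hMom : SMom) (A B : ℝ≥0)
    (hB : ∀ b s, μ b s ≤ (B : ℝ≥0∞) • (volume : Measure ℝ))
    (hA : ∀ b s, ∫⁻ x, ‖x‖ₑ ∂(μ b s) ≤ A) (g : β → Fin t → ℝ) (s0 : β → Fin t)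
    (hg1 : ∀ b, |g b (s0 b)| = 1) (hg : ∀ b s, |g b s| ≤ 1)
    (S : Finset β) (p : β → ℤ) (z θ : ℝ) (hz : 0 < z) (hθ0 : 0 ≤ θ)
    (hθ1 : θ ≤ 1 / 2) (hθL : θ * (∑ b ∈ S, max (p b : ℝ) 0) ≤ 1 / 2)
    (hθR : θ * (∑ b ∈ S, max (-(p b : ℝ)) 0) ≤ 1 / 2) :
    ∫⁻ v, {v : β → Fin t → ℝ | |z * ∏ b ∈ S, lf g b v ^ p b| ≤ 1}.indicator
        (fun v => ‖z * ∏ b ∈ S, lf g b v ^ p b‖ₑ) v ∂(PP μ) ≤
      ENNReal.ofReal (Real.exp (-(θ * |Real.log z|))) * ((1 + t * A) * (1 + 4 * B)) := by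
  -- each exponent is small
  have hmaxL : ∀ b ∈ S, θ * max (p b : ℝ) 0 ≤ 1 / 2 := by
    intro b hb
    refine le_trans (mul_le_mul_of_nonneg_left ?_ hθ0) hθL
    exact Finset.single_le_sum (f := fun b => max (p b : ℝ) 0) (fun c _ => le_max_right _ _) hb
  have hmaxR : ∀ b ∈ S, θ * max (-(p b : ℝ)) 0 ≤ 1 / 2 := by
    intro b hb
    refine le_trans (mul_le_mul_of_nonneg_left ?_ hθ0) hθR
    exact Finset.single_le_sum (f := fun b => max (-(p b : ℝ)) 0) (fun c _ => le_max_right _ _) hb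
  have hmulmax : ∀ a : ℝ, max (θ * a) 0 = θ * max a 0 := by
    intro a
    rw [mul_max_of_nonneg _ _ hθ0, mul_zero]
  have hprod : ∀ (e f : β → ℝ), (∀ b, 0 ≤ e b) → (∀ b, 0 ≤ f b) → ∑ b ∈ S, e b ≤ 1 / 2 →
      ∑ b ∈ S, f b ≤ 1 / 2 →
      ∏ b ∈ S, (((t : ℝ≥0∞) * A) ^ e b * (1 + 4 * (B : ℝ≥0∞)) ^ (2 * f b)) ≤
        (1 + t * A) * (1 + 4 * B) := by
    intro e f he hf hse hsf
    rw [Finset.prod_mul_distrib, rpow_sum _ _ _ fun b _ => he b,
      rpow_sum _ _ _ fun b _ => mul_nonneg zero_le_two (hf b), ← Finset.mul_sum]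
    refine mul_le_mul' (pow_le_one_add _ _ (Finset.sum_nonneg fun b _ => he b) (by linarith)) ?_
    calc (1 + 4 * (B : ℝ≥0∞)) ^ (2 * ∑ b ∈ S, f b) ≤ (1 + 4 * (B : ℝ≥0∞)) ^ (1 : ℝ) :=
          ENNReal.rpow_le_rpow_of_exponent_le (le_add_right le_rfl) (by linarith)
      _ = _ := ENNReal.rpow_one _
  rcases le_total z 1 with hz1 | hz1
  · have hexp : Real.exp (-(θ * |Real.log z|)) = z ^ θ := by
      rw [Real.rpow_def_of_pos hz, abs_of_nonpos (Real.log_nonpos hz.le hz1)]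
      congr 1; ring
    rw [hexp]
    refine (lam_genQ μ g S p z θ hz (by linarith)
      (fun b => ((t : ℝ≥0∞) * A) ^ (θ * max (p b : ℝ) 0) *
        (1 + 4 * (B : ℝ≥0∞)) ^ (2 * (θ * max (-(p b : ℝ)) 0))) fun b hb => ?_).trans ?_
    · have h2 := hmaxL b hb
      have h3 := hmaxR b hb
      have h4 : θ * (p b : ℝ) ≤ 1 / 2 :=
        (mul_le_mul_of_nonneg_left (le_max_left _ _) hθ0).trans h2
      have h5 : θ * (-(p b : ℝ)) ≤ 1 / 2 :=
        (mul_le_mul_of_nonneg_left (le_max_left _ _) hθ0).trans h3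
      have h6 := mom_le μ hMom A B hB hA g s0 hg1 hg b (θ * p b) h4 (by linarith)
      rwa [hmulmax, ← mul_neg, hmulmax] at h6
    · refine mul_le_mul_right ?_ _
      refine hprod (fun b => θ * max (p b : ℝ) 0) (fun b => θ * max (-(p b : ℝ)) 0)
        (fun b => mul_nonneg hθ0 (le_max_right _ _)) (fun b => mul_nonneg hθ0 (le_max_right _ _))
        ?_ ?_
      · rw [← Finset.mul_sum]; exact hθL
      · rw [← Finset.mul_sum]; exact hθR
  · have hexp : Real.exp (-(θ * |Real.log z|)) = z ^ (-θ) := by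
      rw [Real.rpow_def_of_pos hz, abs_of_nonneg (Real.log_nonneg hz1)]
      congr 1; ring
    rw [hexp]
    refine (lam_genQ μ g S p z (-θ) hz (by linarith)
      (fun b => ((t : ℝ≥0∞) * A) ^ (θ * max (-(p b : ℝ)) 0) *
        (1 + 4 * (B : ℝ≥0∞)) ^ (2 * (θ * max (p b : ℝ) 0))) fun b hb => ?_).trans ?_
    · have h2 := hmaxL b hb
      have h3 := hmaxR b hb
      have h4 : θ * (p b : ℝ) ≤ 1 / 2 :=
        (mul_le_mul_of_nonneg_left (le_max_left _ _) hθ0).trans h2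
      have h5 : θ * (-(p b : ℝ)) ≤ 1 / 2 :=
        (mul_le_mul_of_nonneg_left (le_max_left _ _) hθ0).trans h3
      have h6 := mom_le μ hMom A B hB hA g s0 hg1 hg b (-θ * p b) (by linarith) (by linarith)
      have e1 : max (-θ * (p b : ℝ)) 0 = θ * max (-(p b : ℝ)) 0 := by
        rw [← hmulmax]; congr 1; ring
      have e2 : max (-(-θ * (p b : ℝ))) 0 = θ * max (p b : ℝ) 0 := by
        rw [← hmulmax]; congr 1; ring
      rwa [e1, e2] at h6
    · refine mul_le_mul_right ?_ _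
      refine hprod (fun b => θ * max (-(p b : ℝ)) 0) (fun b => θ * max (p b : ℝ) 0)
        (fun b => mul_nonneg hθ0 (le_max_right _ _)) (fun b => mul_nonneg hθ0 (le_max_right _ _))
        ?_ ?_
      · rw [← Finset.mul_sum]; exact hθR
      · rw [← Finset.mul_sum]; exact hθL

end main

theorem sFixQ : SBlock → SMom → SPhP → SFixQ := by
  intro hBlock hMom hPh β _ _ t μ _ A B hB hA g h s0 hg1 hh0 hg S p z la θ hz hθ0
    hθ1 hθL hθR
  classical
  set ζ : β → (β → Fin t → ℝ) → ℝ := fun b v =>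
    z * ∏ c ∈ S.erase b, lf g c v ^ p c with hζ
  set Z : (β → Fin t → ℝ) → ℝ := fun v => z * ∏ b ∈ S, lf g b v ^ p b with hZ
  set T0 : (β → Fin t → ℝ) → ℝ≥0∞ := fun v =>
    {v : β → Fin t → ℝ | |Z v| ≤ 1}.indicator (fun v => ‖Z v‖ₑ) v with hT0
  set TS : β → (β → Fin t → ℝ) → ℝ≥0∞ := fun b v =>
    ‖lf h b v‖ₑ * phP (p b) (ζ b v) (lf g b v) with hTS
  have mZ : Measurable Z := (meas_prodP g p S).const_mul z
  have mζ : ∀ b, Measurable (ζ b) := fun b => (meas_prodP g p (S.erase b)).const_mul z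
  have mT0 : Measurable T0 := by
    refine Measurable.indicator mZ.enorm ?_
    exact measurableSet_le (by fun_prop) measurable_const
  have mTS : ∀ b, Measurable (TS b) := fun b =>
    (meas_lf h b).enorm.mul
      ((meas_phP (p b)).comp ((mζ b).prodMk (meas_lf g b)))
  -- pointwise bound
  have hpt : ∀ v, {v : β → Fin t → ℝ | |Z v| ≤ 1}.indicator
        (fun v => ‖Z v * (la + ∑ b ∈ S, (p b : ℝ) * (lf h b v / lf g b v))‖ₑ) v ≤
      ‖la‖ₑ * T0 v + ∑ b ∈ S, TS b v := by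
    intro v
    rw [indicator_apply]
    split_ifs with hv
    · have hv' : |Z v| ≤ 1 := hv
      have e0 : T0 v = ‖Z v‖ₑ := by
        simp only [hT0]
        rw [indicator_of_mem hv]
      have e1 : Z v * (la + ∑ b ∈ S, (p b : ℝ) * (lf h b v / lf g b v)) =
          la * Z v + ∑ b ∈ S, Z v * ((p b : ℝ) * (lf h b v / lf g b v)) := by
        rw [← Finset.mul_sum]
        ring
      rw [e1]
      refine (enorm_add_le _ _).trans (add_le_add ?_ ?_)
      · rw [enorm_mul, e0]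
      · refine (enorm_sum_le _ _).trans (Finset.sum_le_sum fun b hb => ?_)
        simp only [hTS]
        have e2 : Z v = ζ b v * lf g b v ^ p b := by
          simp only [hZ, hζ]
          rw [← Finset.mul_prod_erase S (fun c => lf g c v ^ p c) hb]
          ring
        have e3 : Z v * ((p b : ℝ) * (lf h b v / lf g b v)) =
            lf h b v * ((p b : ℝ) * (ζ b v * lf g b v ^ p b / lf g b v)) := by
          rw [e2]; ring
        rw [e3, enorm_mul]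
        refine mul_le_mul_right ?_ _
        unfold phP
        rw [if_pos]
        rw [← e2]; exact hv'
    · exact zero_le
  -- integrate
  have iS : ∀ b ∈ S, ∫⁻ v, TS b v ∂(PP μ) ≤ 2 * A * B * ∑ s, ‖h b s‖ₑ := by
    intro b hb
    refine term_leQ μ hBlock A B hB hA g h s0 hg1 hh0 b (ζ b) (mζ b) ?_
      (phP (p b)) (meas_phP (p b)) (hPh (p b))
    intro v x
    simp only [hζ]
    rw [prodP_ne g p _ (Finset.notMem_erase b S)]
  have i0 : ∫⁻ v, T0 v ∂(PP μ) ≤ ENNReal.ofReal (Real.exp (-(θ * |Real.log z|))) *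
        ((1 + t * A) * (1 + 4 * B)) :=
    lam_leQ μ hMom A B hB hA g s0 hg1 hg S p z θ hz hθ0 hθ1 hθL hθR
  refine (lintegral_mono hpt).trans ?_
  rw [lintegral_add_left (mT0.const_mul _), lintegral_const_mul _ mT0,
    lintegral_finsetSum _ (fun b _ => mTS b)]
  have eofR : ENNReal.ofReal (|la| * Real.exp (-(θ * |Real.log z|))) =
      ‖la‖ₑ * ENNReal.ofReal (Real.exp (-(θ * |Real.log z|))) := by
    rw [ENNReal.ofReal_mul (abs_nonneg _), Real.enorm_eq_ofReal_abs]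
  rw [eofR]
  calc ‖la‖ₑ * ∫⁻ v, T0 v ∂(PP μ) + ∑ b ∈ S, ∫⁻ v, TS b v ∂(PP μ)
      ≤ ‖la‖ₑ * (ENNReal.ofReal (Real.exp (-(θ * |Real.log z|))) *
        ((1 + t * A) * (1 + 4 * B))) +
        ∑ b ∈ S, 2 * A * B * ∑ s, ‖h b s‖ₑ := by
        refine add_le_add (mul_le_mul_right i0 _) ?_
        exact Finset.sum_le_sum iS
    _ = _ := by
        rw [← Finset.mul_sum]
        ring

end Pool.Agent.T9h22.TA
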